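import Pool.Agent.K1H25.HF.Stm

/-!
MP_da1489_an, piece HF-TOP: from `ContEst` and `OpenOnto` to `HFG`  (helper58).
-/

set_option autoImplicit false

namespace Pool.Agent.K1H58.HF

open K1H25.HF K1H25.HF.WAlg Topology Filter Set
open scoped NNReal Pointwise

section General

variable {Γ : Type} [AddMonoid Γ] [Finset.HasAntidiagonal Γ] {D : WData Γ}

instance instTAG : IsTopologicalAddGroup (WAlg D) :=
  topologicalAddGroup_iInf fun i =>
    (@SeminormedAddCommGroup.toIsTopologicalAddGroup (WAlg D) (nrmS (D := D) i).toSeminormedAddCommGroup)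

theorem wsn [Nonempty D.I] : WithSeminorms (𝕜 := ℂ) (nrmS (D := D)) :=
  (SeminormFamily.withSeminorms_iff_topologicalSpace_eq_iInf _).2 rfl

theorem nrmS_apply (i : D.I) (a : WAlg D) : nrmS i a = nrm i a := rfl

end General

theorem nrm_le_free {N : ℕ} {R R' : (freeData N).I} (h : R.1 ≤ R'.1) (F : FreeF N) :
    nrm R F ≤ nrm R' F := by
  refine Summable.tsum_le_tsum (fun g => ?_) (F.summ R) (F.summ R')
  refine mul_le_mul_of_nonneg_left ?_ (norm_nonneg _)
  exact pow_le_pow_left₀ R.2.le h _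

theorem t_TOP : S_TOP := by
  intro n N q hq r Φ hr hC hO
  have ne1 : Nonempty (freeData N).I := ⟨⟨1, one_pos⟩⟩
  have ne2 : Nonempty (ballData n q hq r).I := ⟨⟨r / 2, by linarith, by linarith⟩⟩
  have w1 := wsn (D := freeData N)
  have w2 := wsn (D := ballData n q hq r)
  -- continuity
  have hcont : Continuous Φ := by
    have : Continuous (Φ.toLinearMap) := by
      refine WithSeminorms.continuous_of_isBounded w1 w2 Φ.toLinearMap ?_
      intro ρ
      obtain ⟨R, C, hC0, h⟩ := hC ρ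
      refine ⟨{R}, ⟨C, hC0⟩, ?_⟩
      intro F
      rw [Finset.sup_singleton]
      exact h F
    exact this
  -- separation
  have hT1 : T1Space (QBall n q hq r) := by
    refine WithSeminorms.T1_of_separating w2 ?_
    intro a ha
    by_contra hcon
    push Not at hcon
    apply ha
    obtain ⟨ρ⟩ := ne2
    have h0 : nrm ρ a = 0 := hcon ρ
    ext g
    have h1 := le_nrm ρ a g
    rw [h0] at h1
    have h2 := (ballData n q hq r).wt_pos ρ g
    have h3 : ‖a.cf g‖ ≤ 0 := by
      by_contra hlt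
      push Not at hlt
      have := mul_pos hlt h2
      linarith
    rw [cf_zero]
    exact norm_le_zero_iff.1 h3
  -- openness
  have hopen : IsOpenMap Φ := by
    rw [IsTopologicalAddGroup.isOpenMap_iff_nhds_zero]
    rw [(w1.hasBasis_zero_ball.map _).ge_iff]
    rintro ⟨s, ε⟩ hε
    simp only at hε
    -- a common radius
    obtain ⟨R, hR⟩ : ∃ R : (freeData N).I, ∀ R' ∈ s, R'.1 ≤ R.1 := by
      classical
      refine ⟨⟨1 + ∑ R' ∈ s, R'.1, ?_⟩, ?_⟩
      · have : 0 ≤ ∑ R' ∈ s, R'.1 := Finset.sum_nonneg fun R' _ => R'.2.le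
        linarith
      · intro R' hR'
        have := Finset.single_le_sum (f := fun R' : (freeData N).I => R'.1) (fun R' _ => R'.2.le) hR'
        simp only at this ⊢
        linarith
    obtain ⟨ρ, C, hC0, h⟩ := hO R
    refine Filter.mem_of_superset (w2.hasBasis_zero_ball.mem_of_mem (i := ({ρ}, ε / (C + 1))) (by positivity)) ?_
    intro a ha
    rw [Finset.sup_singleton, Seminorm.mem_ball_zero] at ha
    obtain ⟨F, hF, hFn⟩ := h a
    refine ⟨F, ?_, hF⟩
    rw [Seminorm.mem_ball_zero]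
    refine Seminorm.finset_sup_apply_lt hε ?_
    intro R' hR'
    have h1 : nrm ρ a < ε / (C + 1) := ha
    have h2 : nrm R' F ≤ nrm R F := nrm_le_free (hR R' hR') F
    have h3 : C * nrm ρ a < ε := by
      have h4 : nrm ρ a * (C + 1) < ε := (lt_div_iff₀ (by linarith)).1 h1
      have h5 := nrm_nonneg ρ a
      nlinarith
    exact lt_of_le_of_lt (h2.trans hFn) h3
  have hsurj : Function.Surjective Φ := fun a => by
    obtain ⟨ρ, C, hC0, h⟩ := hO ⟨1, one_pos⟩
    obtain ⟨F, hF, -⟩ := h a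
    exact ⟨F, hF⟩
  -- the ideal
  refine ⟨N, TwoSidedIdeal.ker Φ, ?_, ?_⟩
  · have : {x : FreeF N | x ∈ TwoSidedIdeal.ker Φ} = Φ ⁻¹' {0} := by
      ext x
      simp [TwoSidedIdeal.mem_ker]
    rw [this]
    exact isClosed_singleton.preimage hcont
  · have hle : (TwoSidedIdeal.ker Φ).ringCon ≤ RingCon.ker (Φ : FreeF N →+* QBall n q hq r) := fun x y h => h
    let e0 : (TwoSidedIdeal.ker Φ).ringCon.Quotient →ₐ[ℂ] QBall n q hq r :=
      RingCon.liftₐ (TwoSidedIdeal.ker Φ).ringCon Φ hle
    have he0 : ∀ x : FreeF N, e0 ((TwoSidedIdeal.ker Φ).ringCon.mk' x) = Φ x := fun x => rfl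
    have hmk : Function.Surjective ((TwoSidedIdeal.ker Φ).ringCon.mk' : FreeF N → _) :=
      RingCon.mk'_surjective _
    have hbij : Function.Bijective e0 := by
      constructor
      · intro x y hxy
        obtain ⟨x, rfl⟩ := hmk x
        obtain ⟨y, rfl⟩ := hmk y
        rw [he0, he0] at hxy
        exact ((TwoSidedIdeal.ker Φ).ringCon.eq).2 hxy
      · intro a
        obtain ⟨F, hF⟩ := hsurj a
        exact ⟨(TwoSidedIdeal.ker Φ).ringCon.mk' F, hF⟩
    refine ⟨AlgEquiv.ofBijective e0 hbij, ?_⟩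
    let _ : TopologicalSpace (TwoSidedIdeal.ker Φ).ringCon.Quotient :=
      TopologicalSpace.coinduced ((TwoSidedIdeal.ker Φ).ringCon.mk' : FreeF N → _) inferInstance
    refine ⟨?_, ?_, hbij⟩
    · refine continuous_coinduced_dom.2 ?_
      exact hcont
    · intro U hU
      have hU' : IsOpen ((TwoSidedIdeal.ker Φ).ringCon.mk' ⁻¹' U : Set (FreeF N)) := hU
      have : (AlgEquiv.ofBijective e0 hbij) '' U = Φ '' ((TwoSidedIdeal.ker Φ).ringCon.mk' ⁻¹' U) := by
        ext a
        constructor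
        · rintro ⟨x, hx, rfl⟩
          obtain ⟨x, rfl⟩ := hmk x
          exact ⟨x, hx, rfl⟩
        · rintro ⟨x, hx, rfl⟩
          exact ⟨_, hx, rfl⟩
      rw [this]
      exact hopen _ hU'

end Pool.Agent.K1H58.HF
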